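import Pool.Agent.OPH.StmtsB

set_option autoImplicit false

/-!
# Row DV2 of squad OPH (MP_5f6ee5_nt): divisors on average
-/

namespace Pool.Agent.OPH.H81

open Finset Pool.Agent.OPG Pool.Agent.OPH

/-- Multiples of `d` in `(a, a + m)`. -/
lemma card_mult_le (a m d : ℕ) (hd : 1 ≤ d) :
    ((Ioo a (a + m)).filter (fun n => d ∣ n)).card ≤ m / d + 1 := by
  classical
  have hsub : (Ioo a (a + m)).filter (fun n => d ∣ n) ⊆
      (Ioc (a / d) ((a + m) / d)).image (fun k => d * k) := by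
    intro n hn
    rw [Finset.mem_filter, Finset.mem_Ioo] at hn
    obtain ⟨⟨h1, h2⟩, k, rfl⟩ := hn
    refine Finset.mem_image.2 ⟨k, ?_, rfl⟩
    rw [Finset.mem_Ioc]
    refine ⟨?_, ?_⟩
    · rw [Nat.div_lt_iff_lt_mul (by omega)]
      rw [mul_comm]
      exact h1
    · rw [Nat.le_div_iff_mul_le (by omega), mul_comm]
      exact h2.le
  refine (Finset.card_le_card hsub).trans (Finset.card_image_le.trans ?_)
  rw [Nat.card_Ioc, Nat.add_div (by omega)]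
  generalize a / d = x
  generalize m / d = y
  split_ifs <;> omega

lemma key_sum (hlan : LanStmt) (M : ℕ) (hM : 2 ≤ M) :
    ∑ n ∈ Ioo ((M - 1) ^ 2) ((M + 1) ^ 2), n.divisors.card ^ 2 ≤
      2 ^ 14 * ∑ d ∈ Icc 1 M, d.divisors.card ^ 14 * (4 * M / d + 1) := by
  classical
  have h1 : ∀ n ∈ Ioo ((M - 1) ^ 2) ((M + 1) ^ 2), n.divisors.card ^ 2 ≤
      2 ^ 14 * ∑ d ∈ Icc 1 M, if d ∣ n then d.divisors.card ^ 14 else 0 := by
    intro n hn
    rw [Finset.mem_Ioo] at hn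
    have hn1 : 1 ≤ n := by omega
    refine (hlan n hn1).trans (Nat.mul_le_mul_left _ ?_)
    rw [← Finset.sum_filter]
    apply Finset.sum_le_sum_of_subset
    intro d hd
    rw [Finset.mem_filter, Nat.mem_divisors] at hd
    obtain ⟨⟨hdn, _⟩, hd4⟩ := hd
    rw [Finset.mem_filter, Finset.mem_Icc]
    refine ⟨⟨Nat.pos_of_dvd_of_pos hdn (by omega), ?_⟩, hdn⟩
    by_contra hcon
    push Not at hcon
    have h2 : (M + 1) ^ 4 ≤ d ^ 4 := Nat.pow_le_pow_left hcon 4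
    have h3 : (M + 1) ^ 2 ≤ (M + 1) ^ 4 := Nat.pow_le_pow_right (by omega) (by norm_num)
    omega
  refine (Finset.sum_le_sum h1).trans ?_
  rw [← Finset.mul_sum, Finset.sum_comm]
  apply Nat.mul_le_mul_left
  apply Finset.sum_le_sum
  intro d hd
  rw [Finset.mem_Icc] at hd
  rw [← Finset.sum_filter, Finset.sum_const, smul_eq_mul, mul_comm]
  apply Nat.mul_le_mul_left
  have h4 : (M + 1) ^ 2 = (M - 1) ^ 2 + 4 * M := by
    obtain ⟨k, rfl⟩ : ∃ k, M = k + 1 := ⟨M - 1, by omega⟩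
    simp only [Nat.add_sub_cancel]
    ring
  rw [h4]
  exact card_mult_le _ _ d hd.1

/-- The inequality with general constants, to keep the large constants opaque. -/
lemma core (P E : ℕ) (hdkl : ∀ X : ℕ, ∑ d ∈ Icc 1 X, (d.divisors.card : ℝ) ^ 14 / d ≤
      (∑ d ∈ Icc 1 X, (1 : ℝ) / d) ^ E) (l M : ℕ) (hl : 1 ≤ l)
    (hM : 2 ≤ M) (hMl : M < 2 ^ (l + 1)) (Z : ℕ)
    (h1 : Z ≤ P * ∑ d ∈ Icc 1 M, d.divisors.card ^ 14 * (4 * M / d + 1)) :
    Z ≤ 5 * P * 3 ^ E * l ^ E * M := by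
  have hMr : (2 : ℝ) ≤ M := by exact_mod_cast hM
  have hlr : (1 : ℝ) ≤ l := by exact_mod_cast hl
  have hcast : (Z : ℝ) ≤
      P * ∑ d ∈ Icc 1 M, (d.divisors.card : ℝ) ^ 14 * (((4 * M / d : ℕ) : ℝ) + 1) := by
    exact_mod_cast h1
  have h2 : ∑ d ∈ Icc 1 M, (d.divisors.card : ℝ) ^ 14 * (((4 * M / d : ℕ) : ℝ) + 1) ≤
      5 * M * ∑ d ∈ Icc 1 M, (d.divisors.card : ℝ) ^ 14 / d := by
    rw [Finset.mul_sum]
    apply Finset.sum_le_sum
    intro d hd
    rw [Finset.mem_Icc] at hd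
    have hd0 : (0 : ℝ) < d := by exact_mod_cast hd.1
    have hdM : (d : ℝ) ≤ M := by exact_mod_cast hd.2
    have h3 : ((4 * M / d : ℕ) : ℝ) ≤ 4 * M / d := by
      have := @Nat.cast_div_le ℝ _ _ _ (4 * M) d
      push_cast at this
      exact this
    have h4 : (1 : ℝ) ≤ M / d := by
      rw [le_div_iff₀ hd0]
      linarith
    have h5 : ((4 * M / d : ℕ) : ℝ) + 1 ≤ 5 * M / d := by
      have : (5 : ℝ) * M / d = 4 * M / d + M / d := by ring
      linarith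
    calc (d.divisors.card : ℝ) ^ 14 * (((4 * M / d : ℕ) : ℝ) + 1) ≤
        (d.divisors.card : ℝ) ^ 14 * (5 * M / d) :=
          mul_le_mul_of_nonneg_left h5 (by positivity)
      _ = _ := by ring
  have hharm : ∑ d ∈ Icc 1 M, (1 : ℝ) / d ≤ 3 * l := by
    have h3 := harmonic_le_one_add_log M
    rw [harmonic_eq_sum_Icc] at h3
    push_cast at h3
    have h4 : ∑ d ∈ Icc 1 M, (1 : ℝ) / d = ∑ d ∈ Icc 1 M, ((d : ℝ))⁻¹ := by
      apply Finset.sum_congr rfl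
      intro d _
      rw [one_div]
    rw [h4]
    refine h3.trans ?_
    have h5 : Real.log M ≤ (l + 1) * Real.log 2 := by
      have : Real.log M ≤ Real.log ((2 : ℝ) ^ (l + 1)) := by
        apply Real.log_le_log (by linarith)
        have : (M : ℝ) ≤ ((2 ^ (l + 1) : ℕ) : ℝ) := by exact_mod_cast hMl.le
        push_cast at this
        exact this
      rw [Real.log_pow] at this
      push_cast at this
      exact this
    have h6 := Real.log_two_lt_d9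
    have h7 : ((l : ℝ) + 1) * Real.log 2 ≤ ((l : ℝ) + 1) * 1 :=
      mul_le_mul_of_nonneg_left (by linarith) (by linarith)
    linarith
  have hpow : (∑ d ∈ Icc 1 M, (1 : ℝ) / d) ^ E ≤ (3 * (l : ℝ)) ^ E := by
    apply pow_le_pow_left₀ _ hharm
    apply Finset.sum_nonneg
    intro d _
    positivity
  have hfin : (Z : ℝ) ≤ P * (5 * M * (3 * (l : ℝ)) ^ E) := by
    refine hcast.trans ?_
    apply mul_le_mul_of_nonneg_left _ (Nat.cast_nonneg _)
    refine h2.trans ?_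
    apply mul_le_mul_of_nonneg_left _ (by positivity)
    exact (hdkl M).trans hpow
  have heq : (P : ℝ) * (5 * M * (3 * (l : ℝ)) ^ E) = ((5 * P * 3 ^ E * l ^ E * M : ℕ) : ℝ) := by
    push_cast
    rw [mul_pow]
    ring
  rw [heq] at hfin
  exact Nat.cast_le.1 hfin

lemma dv2_of (P E : ℕ) (hP : 1 ≤ P)
    (hdkl : ∀ X : ℕ, ∑ d ∈ Icc 1 X, (d.divisors.card : ℝ) ^ 14 / d ≤
      (∑ d ∈ Icc 1 X, (1 : ℝ) / d) ^ E)
    (hkey : ∀ M : ℕ, 2 ≤ M → ∑ n ∈ Ioo ((M - 1) ^ 2) ((M + 1) ^ 2), n.divisors.card ^ 2 ≤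
      P * ∑ d ∈ Icc 1 M, d.divisors.card ^ 14 * (4 * M / d + 1)) : Dv2Stmt := by
  have h3 : 0 < 3 ^ E := by positivity
  have hE : E ≤ 5 * P * 3 ^ E := by
    have h1 : E < 3 ^ E := Nat.lt_pow_self (by norm_num)
    nlinarith
  refine ⟨5 * P * 3 ^ E, ?_, ?_⟩
  · nlinarith
  · intro M hM
    have hl : 1 ≤ Nat.log 2 M := Nat.log_pos (by norm_num) (by omega)
    have hMl : M < 2 ^ (Nat.log 2 M + 1) := Nat.lt_pow_succ_log_self (by norm_num) M
    refine (core P E hdkl (Nat.log 2 M) M hl (by omega) hMl _ (hkey M (by omega))).trans ?_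
    have h4 : (Nat.log 2 M) ^ E ≤ (Nat.log 2 M) ^ (5 * P * 3 ^ E) :=
      Nat.pow_le_pow_right hl hE
    calc 5 * P * 3 ^ E * (Nat.log 2 M) ^ E * M = 5 * P * 3 ^ E * M * (Nat.log 2 M) ^ E := by ring
      _ ≤ _ := Nat.mul_le_mul_left _ h4

/-- The proof of row DV2. -/
theorem dv2 (hlan : LanStmt) (hdkl : DklStmt) : Dv2Stmt :=
  dv2_of (2 ^ 14) _ (by norm_num) (fun X => hdkl 14 X) (fun M hM => key_sum hlan M hM)

end Pool.Agent.OPH.H81
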