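import Pool.Agent.OPH.StmtsB

set_option autoImplicit false

/-!
# Row END of squad OPH (MP_5f6ee5_nt)
-/

namespace Pool.Agent.OPH.H81

open Finset Pool.Agent.OPG Pool.Agent.OPH

/-- The proof of row END: Taylor expansion of the logarithm. -/
theorem end_ : EndStmt := by
  intro c N h l y hN hh hc hz hy
  have hNr : (1 : ℝ) ≤ N := by exact_mod_cast hN
  have hhr : (1 : ℝ) ≤ h := by exact_mod_cast hh
  have hhN : (1 : ℝ) ≤ (h : ℝ) * N := by nlinarith
  have hy0 : 0 < y := by
    have : (0 : ℝ) < (4 * (h : ℝ) * N) ^ 2 := by positivity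
    linarith
  -- the small quantities
  set u : ℕ → ℝ := fun j => 2 * (h : ℝ) * j / y with hu
  have hu0 : ∀ j, 0 ≤ u j := fun j => by simp only [hu]; positivity
  have hu1 : ∀ j ∈ range N, u j ≤ 1 / (8 * N) := by
    intro j hj
    have hjN : (j : ℝ) ≤ N := by
      have := Finset.mem_range.1 hj
      exact_mod_cast this.le
    simp only [hu]
    rw [div_le_div_iff₀ hy0 (by positivity)]
    have h1 : (2 * (h : ℝ) * j) * (8 * N) ≤ (2 * (h : ℝ) * N) * (8 * N) := by
      apply mul_le_mul_of_nonneg_right _ (by positivity)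
      apply mul_le_mul_of_nonneg_left hjN (by positivity)
    have h2 : (2 * (h : ℝ) * N) * (8 * N) ≤ (4 * (h : ℝ) * N) ^ 2 := by
      have : (h : ℝ) * 1 ≤ (h : ℝ) * h := mul_le_mul_of_nonneg_left hhr (by positivity)
      have h3 : (0 : ℝ) ≤ (N : ℝ) * N := by positivity
      nlinarith
    linarith
  have hu8 : ∀ j ∈ range N, u j ≤ 1 / 8 := by
    intro j hj
    refine (hu1 j hj).trans ?_
    rw [div_le_div_iff₀ (by positivity) (by norm_num)]
    linarith
  -- the Taylor polynomial
  set S : ℕ → ℝ := fun j => ∑ i ∈ range l, (-(u j)) ^ (i + 1) / ((i : ℝ) + 1) with hS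
  have hlog : ∀ j ∈ range N, Real.log (y + 2 * h * j) = Real.log y + Real.log (1 + u j) := by
    intro j hj
    rw [← Real.log_mul hy0.ne' (by have := hu0 j; linarith)]
    congr 1
    simp only [hu]
    field_simp
  have herr : ∀ j ∈ range N, |S j + Real.log (1 + u j)| ≤ 2 * (1 / (8 * (N : ℝ))) ^ (l + 1) := by
    intro j hj
    have h0 := hu0 j
    have h8 := hu8 j hj
    have habs : |-(u j)| = u j := by rw [abs_neg, abs_of_nonneg h0]
    have hkey := Real.abs_log_sub_add_sum_range_le (x := -(u j)) (by rw [habs]; linarith) l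
    rw [habs, sub_neg_eq_add] at hkey
    refine hkey.trans ?_
    rw [div_le_iff₀ (by linarith)]
    have hp : (u j) ^ (l + 1) ≤ (1 / (8 * (N : ℝ))) ^ (l + 1) := pow_le_pow_left₀ h0 (hu1 j hj) _
    have hpp : (0 : ℝ) ≤ (1 / (8 * (N : ℝ))) ^ (l + 1) := by positivity
    nlinarith
  have hsum0 : ∑ j ∈ range N, (c j : ℝ) = 0 := by
    have := hz 0 (Nat.zero_le _)
    simp only [pow_zero, mul_one] at this
    exact_mod_cast this
  have hsumS : ∑ j ∈ range N, (c j : ℝ) * S j = 0 := by
    simp only [hS, Finset.mul_sum]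
    rw [Finset.sum_comm]
    apply Finset.sum_eq_zero
    intro i hi
    have hil : i + 1 ≤ l := Finset.mem_range.1 hi
    have hz' : ∑ j ∈ range N, (c j : ℝ) * (j : ℝ) ^ (i + 1) = 0 := by
      have := hz (i + 1) hil
      exact_mod_cast this
    have : ∑ j ∈ range N, (c j : ℝ) * ((-(u j)) ^ (i + 1) / ((i : ℝ) + 1)) =
        ((-(2 * (h : ℝ) / y)) ^ (i + 1) / ((i : ℝ) + 1)) *
          ∑ j ∈ range N, (c j : ℝ) * (j : ℝ) ^ (i + 1) := by
      rw [Finset.mul_sum]
      apply Finset.sum_congr rfl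
      intro j _
      have : -(u j) = -(2 * (h : ℝ) / y) * j := by
        simp only [hu]
        ring
      rw [this, mul_pow]
      ring
    rw [this, hz', mul_zero]
  have hPH : PH c N h y = ∑ j ∈ range N, (c j : ℝ) * (S j + Real.log (1 + u j)) := by
    unfold PH
    have h1 : ∑ j ∈ range N, (c j : ℝ) * Real.log (y + 2 * h * j) =
        ∑ j ∈ range N, ((c j : ℝ) * Real.log y + (c j : ℝ) * Real.log (1 + u j)) := by
      apply Finset.sum_congr rfl
      intro j hj
      rw [hlog j hj]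
      ring
    rw [h1, Finset.sum_add_distrib, ← Finset.sum_mul, hsum0, zero_mul, zero_add]
    have h2 : ∑ j ∈ range N, (c j : ℝ) * (S j + Real.log (1 + u j)) =
        ∑ j ∈ range N, ((c j : ℝ) * S j + (c j : ℝ) * Real.log (1 + u j)) := by
      apply Finset.sum_congr rfl
      intro j _
      ring
    rw [h2, Finset.sum_add_distrib, hsumS, zero_add]
  rw [hPH]
  refine (Finset.abs_sum_le_sum_abs _ _).trans ?_
  have hterm : ∀ j ∈ range N, |(c j : ℝ) * (S j + Real.log (1 + u j))| ≤
      2 * (1 / (8 * (N : ℝ))) ^ (l + 1) := by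
    intro j hj
    rw [abs_mul]
    have hcj : |(c j : ℝ)| ≤ 1 := by
      have := hc j
      exact_mod_cast this
    calc |(c j : ℝ)| * |S j + Real.log (1 + u j)| ≤ 1 * |S j + Real.log (1 + u j)| :=
          mul_le_mul_of_nonneg_right hcj (abs_nonneg _)
      _ = |S j + Real.log (1 + u j)| := one_mul _
      _ ≤ _ := herr j hj
  refine (Finset.sum_le_card_nsmul _ _ _ hterm).trans ?_
  rw [Finset.card_range, nsmul_eq_mul, pow_succ]
  have h1 : (1 / (8 * (N : ℝ))) ^ l ≤ 1 / 2 ^ l := by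
    rw [div_pow, one_pow]
    apply one_div_le_one_div_of_le (by positivity)
    apply pow_le_pow_left₀ (by norm_num)
    linarith
  have h2 : (N : ℝ) * (2 * ((1 / (8 * (N : ℝ))) ^ l * (1 / (8 * (N : ℝ))))) =
      (1 / 4) * (1 / (8 * (N : ℝ))) ^ l := by
    field_simp
    norm_num
  rw [h2]
  have h3 : (0 : ℝ) ≤ (1 / (8 * (N : ℝ))) ^ l := by positivity
  linarith

end Pool.Agent.OPH.H81
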