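import Pool.Agent.OPH.StmtsB

set_option autoImplicit false

/-!
# Row LAN of squad OPH (MP_5f6ee5_nt): the inequality of Landreau
-/

namespace Pool.Agent.OPH.H81

open Finset Pool.Agent.OPG Pool.Agent.OPH

/-- Admissible multisets. -/
def Adm (n : ℕ) (T : Multiset ℕ) : Prop :=
  T.prod = n ∧ ∀ x ∈ T, 1 ≤ x ∧ (x.Prime ∨ x ^ 4 ≤ n)

lemma tau_mul_le (a b : ℕ) :
    (a * b).divisors.card ≤ a.divisors.card * b.divisors.card := by
  rw [Nat.divisors_mul]
  exact Finset.card_mul_le

lemma tau_prod_le (K : ℕ) (T : Multiset ℕ) (h : ∀ x ∈ T, x.divisors.card ≤ K) :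
    T.prod.divisors.card ≤ K ^ T.card := by
  induction T using Multiset.induction_on with
  | empty => simp
  | cons a T ih =>
    rw [Multiset.prod_cons, Multiset.card_cons, pow_succ, mul_comm (K ^ _)]
    refine (tau_mul_le _ _).trans (Nat.mul_le_mul (h a (Multiset.mem_cons_self _ _)) ?_)
    exact ih (fun x hx => h x (Multiset.mem_cons_of_mem hx))

/-- The combination lemma: four disjoint pairs cannot all be large. -/
lemma four_pairs (n a b c e r : ℕ) (hr : 1 ≤ r) (h : a * b * c * e * r = n)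
    (ha : n < a ^ 4) (hb : n < b ^ 4) (hc : n < c ^ 4) (he : n < e ^ 4) : False := by
  have h1 : a * b * c * e ≤ n := by
    rw [← h]
    exact Nat.le_mul_of_pos_right _ hr
  have h2 : (a * b * c * e) ^ 4 ≤ n ^ 4 := Nat.pow_le_pow_left h1 4
  have h3 : n * n * n * n < a ^ 4 * b ^ 4 * c ^ 4 * e ^ 4 := by
    have k1 : n * n < a ^ 4 * b ^ 4 := Nat.mul_lt_mul'' ha hb
    have k2 : n * n * n < a ^ 4 * b ^ 4 * c ^ 4 := Nat.mul_lt_mul'' k1 hc
    exact Nat.mul_lt_mul'' k2 he
  have h4 : (a * b * c * e) ^ 4 = a ^ 4 * b ^ 4 * c ^ 4 * e ^ 4 := by ring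
  have h5 : n ^ 4 = n * n * n * n := by ring
  omega

lemma exists_min (n : ℕ) (hn : 1 ≤ n) : ∃ T : Multiset ℕ, Adm n T ∧
    ∀ T' : Multiset ℕ, Adm n T' → T.card ≤ T'.card := by
  classical
  have hex : ∃ g : ℕ, ∃ T : Multiset ℕ, Adm n T ∧ T.card = g := by
    refine ⟨_, (n.primeFactorsList : Multiset ℕ), ⟨?_, ?_⟩, rfl⟩
    · rw [Multiset.prod_coe]
      exact Nat.prod_primeFactorsList (by omega)
    · intro x hx
      have hp : x.Prime := Nat.prime_of_mem_primeFactorsList (by simpa using hx)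
      exact ⟨hp.one_lt.le, Or.inl hp⟩
  obtain ⟨T, hT, hTc⟩ := Nat.find_spec hex
  refine ⟨T, hT, ?_⟩
  intro T' hT'
  rw [hTc]
  exact Nat.find_min' hex ⟨T', hT', rfl⟩

lemma pair_large (n : ℕ) (T R : Multiset ℕ) (hT : Adm n T)
    (hmin : ∀ T' : Multiset ℕ, Adm n T' → T.card ≤ T'.card) (x y : ℕ)
    (h : T = x ::ₘ y ::ₘ R) : n < (x * y) ^ 4 := by
  by_contra hcon
  push Not at hcon
  have hx := hT.2 x (by rw [h]; simp)
  have hy := hT.2 y (by rw [h]; simp)
  have hA : Adm n ((x * y) ::ₘ R) := by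
    refine ⟨?_, ?_⟩
    · rw [← hT.1, h]
      simp only [Multiset.prod_cons]
      ring
    · intro z hz
      rcases Multiset.mem_cons.1 hz with rfl | hz
      · exact ⟨Nat.mul_pos hx.1 hy.1, Or.inr hcon⟩
      · exact hT.2 z (by rw [h]; simp [hz])
  have := hmin _ hA
  rw [h] at this
  simp at this

/-- The proof of row LAN. -/
theorem lan : LanStmt := by
  intro n hn
  obtain ⟨T, hT, hmin⟩ := exists_min n hn
  -- at most seven elements
  have hcard : T.card ≤ 7 := by
    by_contra hcon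
    push Not at hcon
    obtain ⟨x1, T1, h1⟩ := Multiset.card_pos_iff_exists_mem.1 (show 0 < T.card by omega) |>.imp
      (fun a ha => Multiset.exists_cons_of_mem ha)
    have c1 : T1.card = T.card - 1 := by rw [h1]; simp
    obtain ⟨x2, T2, h2⟩ := Multiset.card_pos_iff_exists_mem.1 (show 0 < T1.card by omega) |>.imp
      (fun a ha => Multiset.exists_cons_of_mem ha)
    have c2 : T2.card = T1.card - 1 := by rw [h2]; simp
    obtain ⟨x3, T3, h3⟩ := Multiset.card_pos_iff_exists_mem.1 (show 0 < T2.card by omega) |>.imp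
      (fun a ha => Multiset.exists_cons_of_mem ha)
    have c3 : T3.card = T2.card - 1 := by rw [h3]; simp
    obtain ⟨x4, T4, h4⟩ := Multiset.card_pos_iff_exists_mem.1 (show 0 < T3.card by omega) |>.imp
      (fun a ha => Multiset.exists_cons_of_mem ha)
    have c4 : T4.card = T3.card - 1 := by rw [h4]; simp
    obtain ⟨x5, T5, h5⟩ := Multiset.card_pos_iff_exists_mem.1 (show 0 < T4.card by omega) |>.imp
      (fun a ha => Multiset.exists_cons_of_mem ha)
    have c5 : T5.card = T4.card - 1 := by rw [h5]; simp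
    obtain ⟨x6, T6, h6⟩ := Multiset.card_pos_iff_exists_mem.1 (show 0 < T5.card by omega) |>.imp
      (fun a ha => Multiset.exists_cons_of_mem ha)
    have c6 : T6.card = T5.card - 1 := by rw [h6]; simp
    obtain ⟨x7, T7, h7⟩ := Multiset.card_pos_iff_exists_mem.1 (show 0 < T6.card by omega) |>.imp
      (fun a ha => Multiset.exists_cons_of_mem ha)
    have c7 : T7.card = T6.card - 1 := by rw [h7]; simp
    obtain ⟨x8, T8, h8⟩ := Multiset.card_pos_iff_exists_mem.1 (show 0 < T7.card by omega) |>.imp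
      (fun a ha => Multiset.exists_cons_of_mem ha)
    subst h8 h7 h6 h5 h4 h3 h2
    have hR : 1 ≤ T8.prod := by
      apply Nat.one_le_iff_ne_zero.2
      intro h0
      have := Multiset.prod_eq_zero_iff.1 h0
      have := (hT.2 0 (by rw [h1]; simp [this])).1
      omega
    have hp : (x1 * x2) * (x3 * x4) * (x5 * x6) * (x7 * x8) * T8.prod = n := by
      rw [← hT.1, h1]
      simp only [Multiset.prod_cons]
      ring
    have e1 := pair_large n T _ hT hmin x1 x2 h1
    have e2 := pair_large n T (x1 ::ₘ x2 ::ₘ x5 ::ₘ x6 ::ₘ x7 ::ₘ x8 ::ₘ T8) hT hmin x3 x4 (by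
      rw [h1]
      ext a
      simp only [Multiset.count_cons]
      ring)
    have e3 := pair_large n T (x1 ::ₘ x2 ::ₘ x3 ::ₘ x4 ::ₘ x7 ::ₘ x8 ::ₘ T8) hT hmin x5 x6 (by
      rw [h1]
      ext a
      simp only [Multiset.count_cons]
      ring)
    have e4 := pair_large n T (x1 ::ₘ x2 ::ₘ x3 ::ₘ x4 ::ₘ x5 ::ₘ x6 ::ₘ T8) hT hmin x7 x8 (by
      rw [h1]
      ext a
      simp only [Multiset.count_cons]
      ring)
    exact four_pairs n _ _ _ _ _ hR hp e1 e2 e3 e4
  -- the divisor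
  obtain ⟨d, hd, hdn, hmax⟩ : ∃ d : ℕ, d ∣ n ∧ d ^ 4 ≤ n ∧
      ∀ x ∈ T, x.divisors.card ≤ 2 * d.divisors.card := by
    by_cases hF : ∃ x ∈ T.toFinset, x ^ 4 ≤ n
    · have hne : (T.toFinset.filter (fun x => x ^ 4 ≤ n)).Nonempty := by
        obtain ⟨x, hx, hxn⟩ := hF
        exact ⟨x, Finset.mem_filter.2 ⟨hx, hxn⟩⟩
      obtain ⟨d, hd, hdm⟩ := Finset.exists_max_image _ (fun x => x.divisors.card) hne
      rw [Finset.mem_filter, Multiset.mem_toFinset] at hd
      have hdd : d ∣ n := by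
        rw [← hT.1]
        exact Multiset.dvd_prod hd.1
      refine ⟨d, hdd, hd.2, ?_⟩
      intro x hx
      have hd1 : 1 ≤ d.divisors.card := by
        apply Finset.card_pos.2
        exact ⟨1, Nat.one_mem_divisors.2 (by have := (hT.2 d hd.1).1; omega)⟩
      rcases (hT.2 x hx).2 with hp | hx4
      · rw [Nat.Prime.divisors hp]
        refine (Finset.card_le_two).trans ?_
        omega
      · have := hdm x (Finset.mem_filter.2 ⟨Multiset.mem_toFinset.2 hx, hx4⟩)
        omega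
    · push Not at hF
      refine ⟨1, one_dvd _, by simpa using hn, ?_⟩
      intro x hx
      rcases (hT.2 x hx).2 with hp | hx4
      · rw [Nat.Prime.divisors hp]
        refine (Finset.card_le_two).trans ?_
        simp
      · have := hF x (Multiset.mem_toFinset.2 hx)
        omega
  have hd0 : d ≠ 0 := by
    rintro rfl
    rw [zero_dvd_iff] at hd
    omega
  have hd1 : 1 ≤ d.divisors.card := Finset.card_pos.2 ⟨1, Nat.one_mem_divisors.2 hd0⟩
  have hτ : n.divisors.card ≤ (2 * d.divisors.card) ^ 7 := by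
    have h1 := tau_prod_le (2 * d.divisors.card) T hmax
    rw [hT.1] at h1
    exact h1.trans (Nat.pow_le_pow_right (by omega) hcard)
  have hmem : d ∈ n.divisors.filter (fun d => d ^ 4 ≤ n) :=
    Finset.mem_filter.2 ⟨Nat.mem_divisors.2 ⟨hd, by omega⟩, hdn⟩
  have hle : d.divisors.card ^ 14 ≤
      ∑ d ∈ n.divisors.filter (fun d => d ^ 4 ≤ n), d.divisors.card ^ 14 :=
    Finset.single_le_sum (f := fun d : ℕ => d.divisors.card ^ 14) (fun _ _ => Nat.zero_le _) hmem
  calc n.divisors.card ^ 2 ≤ ((2 * d.divisors.card) ^ 7) ^ 2 := Nat.pow_le_pow_left hτ 2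
    _ = 2 ^ 14 * d.divisors.card ^ 14 := by ring
    _ ≤ _ := Nat.mul_le_mul_left _ hle

end Pool.Agent.OPH.H81
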